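import Mathlib

set_option autoImplicit false

/-!
# A lower bound for stabbing queries on R-trees

Let `e` be a permutation of the coordinates without fixed points. For `u ∈ {0, ..., M-1}^d` let
`b_u` be the box whose side in the direction `a` is `[-(M - u (e⁻¹ a)), u a]`. For a coordinate
`a` and `x ∈ {0, ..., M-2}` let `q` be the point with `q a = x + 1/2`,
`q (e a) = -(M - x - 1/2)` and all other coordinates `0`. The bounding box of a set of boxes contains
`q` if and only if the set contains boxes `b_u`, `b_w` with `u a ≤ x` and `x + 1 ≤ w a`. So `q` is in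
none of the boxes, but a set of `k` boxes has at least `d (k^{1/d} - 1)` of these `d (M-1)` points
in its bounding box.
-/

namespace Pool.Agent.Results.MP_a7848c_lc.StabbingLowerBound

/-! ### Definitions -/

/-- Axis-parallel boxes in `ℝ^d`. -/
@[ext] structure Box (d : ℕ) where
  /-- The lower ends of the sides. -/
  lo : Fin d → ℝ
  /-- The upper ends of the sides. -/
  hi : Fin d → ℝ
  le : ∀ i, lo i ≤ hi i

/-- The box as a set of points. -/
def Box.toSet {d : ℕ} (b : Box d) : Set (Fin d → ℝ) := {p | ∀ i, b.lo i ≤ p i ∧ p i ≤ b.hi i}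

/-- The minimal bounding box of the members of `X`: the intersection of all boxes that contain
all members of `X`. -/
def bounding {d : ℕ} (X : Multiset (Box d)) : Set (Fin d → ℝ) :=
  {p | ∀ c : Box d, (∀ b ∈ X, b.toSet ⊆ c.toSet) → p ∈ c.toSet}

/-- Trees of height `h` in which all leaves have the same depth; the leaves store sets of boxes, and
an internal node has `k` children. -/
inductive RTree (d : ℕ) : ℕ → Type
  | leaf (s : Finset (Box d)) : RTree d 0
  | node {h : ℕ} (k : ℕ) (c : Fin k → RTree d h) : RTree d (h + 1)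

/-- The boxes stored in the leaves of the tree (with multiplicities). -/
def elems {d : ℕ} : {h : ℕ} → RTree d h → Multiset (Box d)
  | _, RTree.leaf s => s.val
  | _, RTree.node k c => ∑ i : Fin k, elems (c i)

/-- The size conditions for the nodes of a subtree, its root included: every leaf stores between
`c₁ B` and `c₂ B` boxes, and every internal node has between `c₁ B` and `c₂ B` children. -/
def NonRoot {d : ℕ} (c₁ c₂ : ℝ) (B : ℕ) : {h : ℕ} → RTree d h → Prop
  | _, RTree.leaf s => c₁ * B ≤ s.card ∧ (s.card : ℝ) ≤ c₂ * B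
  | _, RTree.node k c => c₁ * B ≤ k ∧ (k : ℝ) ≤ c₂ * B ∧ ∀ i, NonRoot c₁ c₂ B (c i)

/-- The size conditions for the whole tree: the root is exempt from the lower bound. -/
def SizesOk {d : ℕ} (c₁ c₂ : ℝ) (B : ℕ) : {h : ℕ} → RTree d h → Prop
  | _, RTree.leaf s => (s.card : ℝ) ≤ c₂ * B
  | _, RTree.node k c => (k : ℝ) ≤ c₂ * B ∧ ∀ i, NonRoot c₁ c₂ B (c i)

/-- R-trees on `S` with block size `B`: every element of `S` is stored in exactly one leaf. -/
def IsRTree {d : ℕ} (c₁ c₂ : ℝ) (B : ℕ) (S : Finset (Box d)) {h : ℕ} (t : RTree d h) : Prop :=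
  SizesOk c₁ c₂ B t ∧ elems t = S.val

open Classical in
/-- The number of nodes visited by the stabbing query with the point `q`, starting at the root
of `t`: a child is visited if and only if its bounding box contains `q`. -/
noncomputable def visits {d : ℕ} (q : Fin d → ℝ) : {h : ℕ} → RTree d h → ℕ
  | _, RTree.leaf _ => 1
  | _, RTree.node k c => 1 + ∑ i : Fin k, if q ∈ bounding (elems (c i)) then visits q (c i) else 0

/-- Every set `S` of `N` boxes in `ℝ^d` admits an R-tree on which every stabbing query costs at most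
`C (f(N,B) + T/B)` node visits, where `T` is the number of boxes that contain the query point.
(We consider all block sizes `B` with `2 ≤ c₁ B`.) -/
def StabbingBound (d : ℕ) (c₁ c₂ C : ℝ) (f : ℕ → ℕ → ℝ) : Prop :=
  ∀ N B : ℕ, 1 ≤ N → 2 ≤ c₁ * B → ∀ S : Finset (Box d), S.card = N →
    ∃ (h : ℕ) (t : RTree d h), IsRTree c₁ c₂ B S t ∧
      ∀ q : Fin d → ℝ, (visits q t : ℝ) ≤ C * (f N B + (Set.ncard {b | b ∈ S ∧ q ∈ b.toSet} : ℝ) / B)

/-! ### Bounding boxes -/

theorem self_mem_lo {d : ℕ} (b : Box d) : b.lo ∈ b.toSet := fun i => ⟨le_rfl, b.le i⟩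

theorem self_mem_hi {d : ℕ} (b : Box d) : b.hi ∈ b.toSet := fun i => ⟨b.le i, le_rfl⟩

theorem mem_bounding {d : ℕ} {X : Multiset (Box d)} {p : Fin d → ℝ}
    (h : ∀ i, (∃ b ∈ X, b.lo i ≤ p i) ∧ ∃ b ∈ X, p i ≤ b.hi i) : p ∈ bounding X := by
  intro c hc i
  obtain ⟨⟨b, hb, h1⟩, ⟨b', hb', h2⟩⟩ := h i
  exact ⟨((hc b hb (self_mem_lo b)) i).1.trans h1, h2.trans ((hc b' hb' (self_mem_hi b')) i).2⟩

theorem bounding_mono {d : ℕ} {X Y : Multiset (Box d)} (h : ∀ b ∈ X, b ∈ Y) :
    bounding X ⊆ bounding Y :=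
  fun _ hp c hc => hp c fun b hb => hc b (h b hb)

theorem elems_child {d h k : ℕ} (c : Fin k → RTree d h) (i : Fin k) :
    ∀ b ∈ elems (c i), b ∈ elems (RTree.node k c) := by
  intro b hb
  rw [elems, Multiset.mem_sum]
  exact ⟨i, Finset.mem_univ i, hb⟩

/-! ### The boxes and the query points -/

section Construction

variable {d M : ℕ} (e : Equiv.Perm (Fin d))

/-- The box of `u`. -/
def box (u : Fin d → Fin M) : Box d where
  lo a := -((M : ℝ) - (u (e.symm a) : ℕ))
  hi a := (u a : ℕ)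
  le a := by
    have h1 : ((u (e.symm a) : ℕ) : ℝ) ≤ M := by exact_mod_cast (u (e.symm a)).2.le
    have h2 : (0 : ℝ) ≤ ((u a : ℕ) : ℝ) := Nat.cast_nonneg _
    linarith

/-- The query points. -/
noncomputable def qp (M : ℕ) (a : Fin d) (x : ℕ) : Fin d → ℝ := fun i =>
  if i = a then (x : ℝ) + 1 / 2 else if i = e a then -((M : ℝ) - x - 1 / 2) else 0

variable {e}

theorem box_inj : Function.Injective (box (M := M) e) := by
  intro u w h
  funext a
  have h1 : (box e u).hi a = (box e w).hi a := by rw [h]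
  have h2 : ((u a : ℕ) : ℝ) = ((w a : ℕ) : ℝ) := h1
  exact Fin.ext (by exact_mod_cast h2)

/-- The query points are in none of the boxes. -/
theorem qp_not_mem (he : ∀ a, e a ≠ a) (a : Fin d) (x : ℕ) (u : Fin d → Fin M) :
    qp e M a x ∉ (box e u).toSet := by
  intro h
  have h1 := (h a).2
  have h2 := (h (e a)).1
  have h3 : qp e M a x a = (x : ℝ) + 1 / 2 := by simp [qp]
  have h4 : qp e M a x (e a) = -((M : ℝ) - x - 1 / 2) := by simp [qp, he a]
  rw [h3] at h1
  rw [h4] at h2
  have h5 : (box e u).hi a = ((u a : ℕ) : ℝ) := rfl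
  have h6 : (box e u).lo (e a) = -((M : ℝ) - (u a : ℕ)) := by
    change -((M : ℝ) - (u (e.symm (e a)) : ℕ)) = _
    rw [Equiv.symm_apply_apply]
  rw [h5] at h1
  rw [h6] at h2
  have h7 : (x : ℝ) < ((u a : ℕ) : ℝ) := by linarith
  have h8 : x + 1 ≤ (u a : ℕ) := by exact_mod_cast h7
  have h9 : (x : ℝ) + 1 ≤ ((u a : ℕ) : ℝ) := by exact_mod_cast h8
  linarith

/-- The query point is in the bounding box of a set that straddles it. -/
theorem qp_mem (he : ∀ a, e a ≠ a) (a : Fin d) (x : ℕ) (X : Multiset (Box d))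
    (u w : Fin d → Fin M) (hu : box e u ∈ X) (hw : box e w ∈ X) (h1 : (u a : ℕ) ≤ x)
    (h2 : x + 1 ≤ (w a : ℕ)) : qp e M a x ∈ bounding X := by
  have h1' : ((u a : ℕ) : ℝ) ≤ x := by exact_mod_cast h1
  have h2' : (x : ℝ) + 1 ≤ ((w a : ℕ) : ℝ) := by exact_mod_cast h2
  have hwM : ((w a : ℕ) : ℝ) ≤ M := by exact_mod_cast (w a).2.le
  have hx0 : (0 : ℝ) ≤ x := Nat.cast_nonneg _
  have hlo : ∀ i, (box e u).lo i ≤ 0 := by
    intro i
    have : ((u (e.symm i) : ℕ) : ℝ) ≤ M := by exact_mod_cast (u (e.symm i)).2.le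
    change -((M : ℝ) - (u (e.symm i) : ℕ)) ≤ 0
    linarith
  have hhi : ∀ i, 0 ≤ (box e u).hi i := by
    intro i
    exact Nat.cast_nonneg _
  refine mem_bounding fun i => ?_
  by_cases hi : i = a
  · subst hi
    have h3 : qp e M i x i = (x : ℝ) + 1 / 2 := by simp [qp]
    rw [h3]
    refine ⟨⟨_, hu, (hlo i).trans (by linarith)⟩, ⟨_, hw, ?_⟩⟩
    change (x : ℝ) + 1 / 2 ≤ ((w i : ℕ) : ℝ)
    linarith
  · by_cases hi' : i = e a
    · subst hi'
      have h3 : qp e M a x (e a) = -((M : ℝ) - x - 1 / 2) := by simp [qp, he a]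
      rw [h3]
      refine ⟨⟨_, hu, ?_⟩, ⟨_, hu, ?_⟩⟩
      · change -((M : ℝ) - (u (e.symm (e a)) : ℕ)) ≤ _
        rw [Equiv.symm_apply_apply]
        linarith
      · exact le_trans (by linarith) (hhi (e a))
    · have h3 : qp e M a x i = 0 := by simp [qp, hi, hi']
      rw [h3]
      exact ⟨⟨_, hu, hlo i⟩, ⟨_, hu, hhi i⟩⟩

end Construction

/-! ### Counting -/

section Counting

variable {d M : ℕ} {e : Equiv.Perm (Fin d)}

/-- The projections of a set of `k` boxes are large. -/
theorem card_proj (hd : 1 ≤ d) (G : Finset (Fin d → Fin M)) :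
    (d : ℝ) * ((G.card : ℝ) ^ (1 / (d : ℝ)) - 1) ≤
      ∑ a : Fin d, (((G.image fun u => u a).card : ℝ) - 1) := by
  classical
  have hd0 : (0 : ℝ) < d := by exact_mod_cast hd
  set w : Fin d → ℝ := fun a => ((G.image fun u => u a).card : ℝ) with hw
  have hw0 : ∀ a, 0 ≤ w a := fun a => Nat.cast_nonneg _
  have h1 : (G.card : ℝ) ≤ ∏ a, w a := by
    have h2 : G ⊆ Fintype.piFinset fun a => G.image fun u => u a := by
      intro u hu
      rw [Fintype.mem_piFinset]
      exact fun a => Finset.mem_image_of_mem _ hu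
    have h3 := Finset.card_le_card h2
    rw [Fintype.card_piFinset] at h3
    have h4 : ((G.card : ℕ) : ℝ) ≤ ((∏ a, (G.image fun u => u a).card : ℕ) : ℝ) := by
      exact_mod_cast h3
    rw [Nat.cast_prod] at h4
    exact h4
  have h2 := Real.geom_mean_le_arith_mean_weighted Finset.univ (fun _ : Fin d => 1 / (d : ℝ)) w
    (fun _ _ => by positivity) (by
      rw [Finset.sum_const, Finset.card_univ, Fintype.card_fin, nsmul_eq_mul]
      field_simp) (fun a _ => hw0 a)
  rw [Real.finsetProd_rpow _ _ (fun a _ => hw0 a), ← Finset.mul_sum] at h2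
  have h3 : (G.card : ℝ) ^ (1 / (d : ℝ)) ≤ 1 / (d : ℝ) * ∑ a, w a :=
    (Real.rpow_le_rpow (Nat.cast_nonneg _) h1 (by positivity)).trans h2
  have h4 : (d : ℝ) * (G.card : ℝ) ^ (1 / (d : ℝ)) ≤ ∑ a, w a := by
    calc (d : ℝ) * (G.card : ℝ) ^ (1 / (d : ℝ)) ≤ d * (1 / (d : ℝ) * ∑ a, w a) :=
          mul_le_mul_of_nonneg_left h3 hd0.le
      _ = ∑ a, w a := by field_simp
  rw [Finset.sum_sub_distrib, Finset.sum_const, Finset.card_univ, Fintype.card_fin,
    nsmul_eq_mul, mul_one]
  linarith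

open Classical in
/-- The number of query points in the bounding box. -/
theorem straddle (he : ∀ a, e a ≠ a) (a : Fin d) (G : Finset (Fin d → Fin M)) (hG : G.Nonempty)
    (X : Multiset (Box d)) (hX : ∀ u ∈ G, box e u ∈ X) :
    ((G.image fun u => u a).card : ℝ) - 1 ≤
      ∑ x : Fin (M - 1), if qp e M a x ∈ bounding X then (1 : ℝ) else 0 := by
  set Pa : Finset (Fin M) := G.image fun u => u a with hPa
  have hne : Pa.Nonempty := hG.image _
  set m := Pa.max' hne with hm
  obtain ⟨w, hwG, hw⟩ := Finset.mem_image.mp (Pa.max'_mem hne)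
  have h1 : (Pa.erase m).card ≤
      (Finset.univ.filter fun x : Fin (M - 1) => qp e M a x ∈ bounding X).card := by
    have hlt : ∀ y ∈ Pa.erase m, (y : ℕ) < m := by
      intro y hy
      have h2 := Pa.le_max' y (Finset.mem_of_mem_erase hy)
      exact lt_of_le_of_ne h2 (fun h => (Finset.mem_erase.mp hy).1 (Fin.ext h))
    have hM : ∀ y ∈ Pa.erase m, (y : ℕ) < M - 1 := by
      intro y hy
      have := hlt y hy
      have := m.2
      omega
    have himg : (Pa.erase m).image (fun y : Fin M => (y : ℕ)) ⊆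
        (Finset.univ.filter fun x : Fin (M - 1) => qp e M a x ∈ bounding X).image
          (fun x : Fin (M - 1) => (x : ℕ)) := by
      intro n hn
      obtain ⟨y, hy, rfl⟩ := Finset.mem_image.mp hn
      obtain ⟨u, huG, hu⟩ := Finset.mem_image.mp (Finset.mem_of_mem_erase hy)
      refine Finset.mem_image.mpr ⟨⟨y, hM y hy⟩, ?_, rfl⟩
      rw [Finset.mem_filter]
      refine ⟨Finset.mem_univ _, ?_⟩
      refine qp_mem he a y X u w (hX u huG) (hX w hwG) ?_ ?_
      · have hu' : u a = y := hu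
        rw [hu']
      · have hw' : w a = m := hw
        rw [hw']
        exact hlt y hy
    calc (Pa.erase m).card = ((Pa.erase m).image (fun y : Fin M => (y : ℕ))).card :=
          (Finset.card_image_of_injective _ Fin.val_injective).symm
      _ ≤ _ := Finset.card_le_card himg
      _ ≤ _ := Finset.card_image_le
  rw [Finset.card_erase_of_mem (Pa.max'_mem hne)] at h1
  have h2 : (∑ x : Fin (M - 1), if qp e M a x ∈ bounding X then (1 : ℝ) else 0) =
      ((Finset.univ.filter fun x : Fin (M - 1) => qp e M a x ∈ bounding X).card : ℝ) := by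
    rw [Finset.sum_boole]
  rw [h2]
  have h3 : 1 ≤ Pa.card := hne.card_pos
  have h4 : ((Pa.card - 1 : ℕ) : ℝ) ≤
      ((Finset.univ.filter fun x : Fin (M - 1) => qp e M a x ∈ bounding X).card : ℝ) := by
    exact_mod_cast h1
  rw [Nat.cast_sub h3] at h4
  simpa using h4

open Classical in
/-- The sum over all query points of the number of visited nodes of a subtree. -/
theorem weight (hd : 1 ≤ d) (he : ∀ a, e a ≠ a) {c₁ c₂ : ℝ} (hc₂ : 0 < c₂) {B : ℕ}
    (hB : 2 ≤ c₁ * B) (hB' : 0 < (B : ℝ)) : {h : ℕ} → (t : RTree d h) → NonRoot c₁ c₂ B t →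
    (∀ b ∈ elems t, ∃ u : Fin d → Fin M, box e u = b) →
    ((elems t).card : ℝ) * ((d : ℝ) * ((c₁ * B) ^ (1 / (d : ℝ)) - 1) / (c₂ * B)) ≤
      ∑ a : Fin d, ∑ x : Fin (M - 1),
        if qp e M a x ∈ bounding (elems t) then (visits (qp e M a x) t : ℝ) else 0
  | _, RTree.leaf s, ht, hs => by
    obtain ⟨ht1, ht2⟩ := ht
    have hm2 : 0 < c₂ * B := mul_pos hc₂ hB'
    have helems : elems (RTree.leaf s) = s.val := rfl
    rw [helems] at hs ⊢
    -- the set of indices
    let G : Finset (Fin d → Fin M) := Finset.univ.filter fun u => box e u ∈ s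
    have hGs : G.image (box e) = s := by
      ext b
      simp only [G, Finset.mem_image, Finset.mem_filter, Finset.mem_univ, true_and]
      constructor
      · rintro ⟨u, hu, rfl⟩
        exact hu
      · intro hb
        obtain ⟨u, hu⟩ := hs b hb
        exact ⟨u, hu ▸ hb, hu⟩
    have hGc : G.card = s.card := by
      rw [← hGs, Finset.card_image_of_injective _ box_inj]
    have hsc : (s.val.card : ℝ) = (G.card : ℝ) := by rw [hGc]; rfl
    have hGne : G.Nonempty := by
      rw [← Finset.card_pos, hGc]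
      have : (0 : ℝ) < s.card := by linarith
      exact_mod_cast this
    have h1 := card_proj hd G
    have h2 : ∑ a : Fin d, (((G.image fun u => u a).card : ℝ) - 1) ≤
        ∑ a : Fin d, ∑ x : Fin (M - 1), if qp e M a x ∈ bounding s.val then (1 : ℝ) else 0 := by
      refine Finset.sum_le_sum fun a _ => ?_
      exact straddle he a G hGne s.val fun u hu => (Finset.mem_filter.mp hu).2
    have h3 : ∑ a : Fin d, ∑ x : Fin (M - 1), (if qp e M a x ∈ bounding s.val then
        (visits (qp e M a x) (RTree.leaf s) : ℝ) else 0) =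
        ∑ a : Fin d, ∑ x : Fin (M - 1), if qp e M a x ∈ bounding s.val then (1 : ℝ) else 0 := by
      simp [visits]
    rw [h3]
    refine le_trans ?_ (h1.trans h2)
    rw [hsc]
    have hG1 : c₁ * B ≤ (G.card : ℝ) := by rw [hGc]; exact ht1
    have hG2 : (G.card : ℝ) ≤ c₂ * B := by rw [hGc]; exact ht2
    have h4 : (c₁ * B) ^ (1 / (d : ℝ)) ≤ (G.card : ℝ) ^ (1 / (d : ℝ)) :=
      Real.rpow_le_rpow (by linarith) hG1 (by positivity)
    have h5 : 1 ≤ (c₁ * B) ^ (1 / (d : ℝ)) := Real.one_le_rpow (by linarith) (by positivity)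
    have hd0 : (0 : ℝ) ≤ d := Nat.cast_nonneg _
    calc (G.card : ℝ) * ((d : ℝ) * ((c₁ * B) ^ (1 / (d : ℝ)) - 1) / (c₂ * B))
        = ((G.card : ℝ) / (c₂ * B)) * ((d : ℝ) * ((c₁ * B) ^ (1 / (d : ℝ)) - 1)) := by ring
      _ ≤ 1 * ((d : ℝ) * ((c₁ * B) ^ (1 / (d : ℝ)) - 1)) := by
          refine mul_le_mul_of_nonneg_right ?_ (mul_nonneg hd0 (by linarith))
          rw [div_le_one hm2]
          exact hG2
      _ ≤ (d : ℝ) * ((G.card : ℝ) ^ (1 / (d : ℝ)) - 1) := by
          rw [one_mul]
          exact mul_le_mul_of_nonneg_left (by linarith) hd0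
  | _, RTree.node k c, ht, hs => by
    have ih := fun i => weight hd he hc₂ hB hB' (c i) (ht.2.2 i)
      (fun b hb => hs b (elems_child c i b hb))
    have h1 : ((elems (RTree.node k c)).card : ℝ) = ∑ i : Fin k, ((elems (c i)).card : ℝ) := by
      rw [elems, Multiset.card_sum]
      push_cast
      rfl
    rw [h1, Finset.sum_mul]
    refine (Finset.sum_le_sum fun i _ => ih i).trans ?_
    rw [Finset.sum_comm]
    refine Finset.sum_le_sum fun a _ => ?_
    rw [Finset.sum_comm]
    refine Finset.sum_le_sum fun x _ => ?_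
    by_cases hq : qp e M a x ∈ bounding (elems (RTree.node k c))
    · rw [if_pos hq, visits]
      push_cast
      have : ∑ i : Fin k, (if qp e M a x ∈ bounding (elems (c i)) then
          (visits (qp e M a x) (c i) : ℝ) else 0) ≤
          1 + ∑ i : Fin k, (if qp e M a x ∈ bounding (elems (c i)) then
          (visits (qp e M a x) (c i) : ℝ) else 0) := by linarith
      refine this.trans (le_of_eq ?_)
      simp only [Nat.cast_ite, Nat.cast_zero]
    · rw [if_neg hq]
      refine le_of_eq (Finset.sum_eq_zero fun i _ => ?_)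
      rw [if_neg fun h => hq (bounding_mono (elems_child c i) h)]

end Counting

/-- The boxes of the lower bound. -/
theorem lower {d : ℕ} (hd : 2 ≤ d) {c₁ c₂ : ℝ} (hc₁ : 0 < c₁) (hc₂ : 0 < c₂) :
    ∃ c : ℝ, 0 < c ∧ ∀ N B : ℕ, 1 ≤ N → 2 ≤ c₁ * B →
      ∃ S : Finset (Box d), S.card = N ∧ ∀ (h : ℕ) (t : RTree d h), IsRTree c₁ c₂ B S t →
        ∃ q : Fin d → ℝ, (∀ b ∈ S, q ∉ b.toSet) ∧
          c * ((N : ℝ) / B) ^ (1 - 1 / (d : ℝ)) ≤ (visits q t : ℝ) := by
  classical
  -- a permutation without fixed points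
  obtain ⟨e, he⟩ : ∃ e : Equiv.Perm (Fin d), ∀ a, e a ≠ a := by
    obtain ⟨n, rfl⟩ : ∃ n, d = n + 2 := ⟨d - 2, by omega⟩
    refine ⟨finRotate (n + 2), fun a => ?_⟩
    rw [finRotate_apply]
    intro h
    simp at h
  have hd0 : (0 : ℝ) < d := by exact_mod_cast (by omega : 0 < d)
  have hd1 : (1 : ℝ) ≤ d := by exact_mod_cast (by omega : 1 ≤ d)
  have hexp : 0 ≤ 1 - 1 / (d : ℝ) := by
    rw [sub_nonneg, div_le_one hd0]
    exact hd1
  set κ : ℝ := 1 - (2 : ℝ)⁻¹ ^ (1 / (d : ℝ)) with hκ
  have hκ0 : 0 < κ := by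
    rw [hκ, sub_pos]
    exact Real.rpow_lt_one (by norm_num) (by norm_num) (by positivity)
  refine ⟨min (κ * c₁ ^ (1 / (d : ℝ)) / c₂) ((c₂ ^ (1 - 1 / (d : ℝ)))⁻¹), ?_, ?_⟩
  · exact lt_min (by positivity) (by positivity)
  intro N B hN hB
  have hB0 : (0 : ℝ) < B := by
    rcases Nat.eq_zero_or_pos B with h | h
    · subst h
      norm_num at hB
    · exact_mod_cast h
  -- the size of the grid
  have hex : ∃ M : ℕ, N ≤ M ^ d := ⟨N, Nat.le_self_pow (by omega) N⟩
  obtain ⟨M, hM1, hM2⟩ : ∃ M : ℕ, N ≤ M ^ d ∧ ∀ m < M, m ^ d < N := by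
    refine ⟨Nat.find hex, Nat.find_spec hex, fun m hm => ?_⟩
    have := Nat.find_min hex hm
    omega
  obtain ⟨U, hU1, hU2⟩ : ∃ U ⊆ (Finset.univ : Finset (Fin d → Fin M)), U.card = N := by
    apply Finset.exists_subset_card_eq
    rw [Finset.card_univ, Fintype.card_fun, Fintype.card_fin, Fintype.card_fin]
    exact hM1
  refine ⟨U.image (box e), ?_, ?_⟩
  · rw [Finset.card_image_of_injective _ box_inj, hU2]
  intro h t ht
  have hSmem : ∀ b ∈ U.image (box e), ∃ u : Fin d → Fin M, box e u = b := by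
    intro b hb
    obtain ⟨u, -, hu⟩ := Finset.mem_image.mp hb
    exact ⟨u, hu⟩
  have hNB0 : 0 ≤ (N : ℝ) / B := by positivity
  have hpow0 : 0 ≤ ((N : ℝ) / B) ^ (1 - 1 / (d : ℝ)) := Real.rpow_nonneg hNB0 _
  rcases le_or_gt (N : ℝ) (c₂ * B) with hcase | hcase
  · -- few boxes
    refine ⟨fun _ => (M : ℝ) + 1, ?_, ?_⟩
    · intro b hb hq
      obtain ⟨u, rfl⟩ := hSmem b hb
      have h1 := (hq ⟨0, by omega⟩).2
      have h2 : ((u ⟨0, by omega⟩ : ℕ) : ℝ) ≤ M := by exact_mod_cast (u ⟨0, by omega⟩).2.le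
      have h3 : (box e u).hi ⟨0, by omega⟩ = ((u ⟨0, by omega⟩ : ℕ) : ℝ) := rfl
      rw [h3] at h1
      linarith
    · have h1 : (1 : ℝ) ≤ (visits (fun _ => (M : ℝ) + 1) t : ℝ) := by
        have : 1 ≤ visits (fun _ : Fin d => (M : ℝ) + 1) t := by
          cases t with
          | leaf s => exact le_rfl
          | node k c => rw [visits]; omega
        exact_mod_cast this
      refine le_trans ?_ h1
      have h2 : ((N : ℝ) / B) ^ (1 - 1 / (d : ℝ)) ≤ c₂ ^ (1 - 1 / (d : ℝ)) := by
        refine Real.rpow_le_rpow hNB0 ?_ hexp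
        rw [div_le_iff₀ hB0]
        exact hcase
      have h3 : 0 < c₂ ^ (1 - 1 / (d : ℝ)) := by positivity
      calc min (κ * c₁ ^ (1 / (d : ℝ)) / c₂) ((c₂ ^ (1 - 1 / (d : ℝ)))⁻¹) *
            ((N : ℝ) / B) ^ (1 - 1 / (d : ℝ))
          ≤ (c₂ ^ (1 - 1 / (d : ℝ)))⁻¹ * c₂ ^ (1 - 1 / (d : ℝ)) :=
            mul_le_mul (min_le_right _ _) h2 hpow0 (by positivity)
        _ = 1 := inv_mul_cancel₀ h3.ne'
  · -- many boxes
    cases t with
    | leaf s =>
      exfalso
      obtain ⟨ht1, ht2⟩ := ht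
      have h1 : s = U.image (box e) := Finset.val_injective ht2
      have h2 : (s.card : ℝ) ≤ c₂ * B := ht1
      rw [h1, Finset.card_image_of_injective _ box_inj, hU2] at h2
      linarith
    | @node h k c =>
      obtain ⟨⟨-, ht1⟩, ht2⟩ := ht
      have hM2' : 2 ≤ M := by
        by_contra hlt
        have h1 : M ≤ 1 := by omega
        have h2 : M ^ d ≤ 1 := by
          calc M ^ d ≤ 1 ^ d := Nat.pow_le_pow_left h1 d
            _ = 1 := one_pow d
        have h3 : N = 1 := by omega
        -- then there is a leaf with two boxes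
        have h4 : ∑ i : Fin k, (elems (c i)).card = 1 := by
          have h5 : (elems (RTree.node k c)).card = 1 := by
            rw [ht2]
            change (U.image (box e)).card = 1
            rw [Finset.card_image_of_injective _ box_inj, hU2, h3]
          rwa [elems, Multiset.card_sum] at h5
        have h5 : ∀ {h : ℕ} (t : RTree d h), NonRoot c₁ c₂ B t → 2 ≤ (elems t).card := by
          intro h t
          induction t with
          | leaf s =>
            intro ht
            have h6 : (2 : ℝ) ≤ s.card := hB.trans ht.1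
            have h7 : 2 ≤ s.card := by exact_mod_cast h6
            exact h7
          | node k c ih =>
            intro ht
            have h6 : (2 : ℝ) ≤ k := hB.trans ht.1
            have h7 : 2 ≤ k := by exact_mod_cast h6
            rw [elems, Multiset.card_sum]
            have h8 := ih ⟨0, by omega⟩ (ht.2.2 _)
            exact h8.trans (Finset.single_le_sum (f := fun i => (elems (c i)).card)
              (fun _ _ => Nat.zero_le _) (Finset.mem_univ (⟨0, by omega⟩ : Fin k)))
        obtain ⟨i, -, hi⟩ := Finset.exists_ne_zero_of_sum_ne_zero (by rw [h4]; exact one_ne_zero)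
        have h6 := h5 (c i) (ht1 i)
        have h7 : (elems (c i)).card ≤ ∑ i : Fin k, (elems (c i)).card :=
          Finset.single_le_sum (f := fun i => (elems (c i)).card)
            (fun _ _ => Nat.zero_le _) (Finset.mem_univ i)
        omega
      -- the total number of visits
      have htot : (N : ℝ) * ((d : ℝ) * ((c₁ * B) ^ (1 / (d : ℝ)) - 1) / (c₂ * B)) ≤
          ∑ a : Fin d, ∑ x : Fin (M - 1), (visits (qp e M a x) (RTree.node k c) : ℝ) := by
        have h1 : (N : ℝ) = ∑ i : Fin k, ((elems (c i)).card : ℝ) := by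
          have h5 : (elems (RTree.node k c)).card = N := by
            rw [ht2]
            change (U.image (box e)).card = N
            rw [Finset.card_image_of_injective _ box_inj, hU2]
          rw [elems, Multiset.card_sum] at h5
          exact_mod_cast h5.symm
        rw [h1, Finset.sum_mul]
        refine (Finset.sum_le_sum fun i _ => weight (M := M) (e := e) (by omega) he hc₂ hB hB0
          (c i) (ht1 i) (fun b hb => ?_)).trans ?_
        · have h2 : b ∈ elems (RTree.node k c) := elems_child c i b hb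
          rw [ht2] at h2
          exact hSmem b h2
        · rw [Finset.sum_comm]
          refine Finset.sum_le_sum fun a _ => ?_
          rw [Finset.sum_comm]
          refine Finset.sum_le_sum fun x _ => ?_
          rw [visits]
          push_cast
          have : ∑ i : Fin k, (if qp e M a x ∈ bounding (elems (c i)) then
              (visits (qp e M a x) (c i) : ℝ) else 0) ≤
              1 + ∑ i : Fin k, (if qp e M a x ∈ bounding (elems (c i)) then
              (visits (qp e M a x) (c i) : ℝ) else 0) := by linarith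
          refine this.trans (le_of_eq ?_)
          simp only [Nat.cast_ite, Nat.cast_zero]
      -- some query point has many visits
      by_contra hcon
      push Not at hcon
      set V : ℝ := min (κ * c₁ ^ (1 / (d : ℝ)) / c₂) ((c₂ ^ (1 - 1 / (d : ℝ)))⁻¹) *
            ((N : ℝ) / B) ^ (1 - 1 / (d : ℝ)) with hV
      have hlt : ∀ (a : Fin d) (x : Fin (M - 1)),
          (visits (qp e M a x) (RTree.node k c) : ℝ) < V := by
        intro a x
        refine hcon (qp e M a x) ?_
        intro b hb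
        obtain ⟨u, rfl⟩ := hSmem b hb
        exact qp_not_mem he a x u
      have : Nonempty (Fin d) := ⟨⟨0, by omega⟩⟩
      have : Nonempty (Fin (M - 1)) := ⟨⟨0, by omega⟩⟩
      have hlt2 : ∑ a : Fin d, ∑ x : Fin (M - 1), (visits (qp e M a x) (RTree.node k c) : ℝ) <
          d * ((M - 1 : ℕ) * V) := by
        calc ∑ a : Fin d, ∑ x : Fin (M - 1), (visits (qp e M a x) (RTree.node k c) : ℝ)
            < ∑ _a : Fin d, ∑ _x : Fin (M - 1), V :=
              Finset.sum_lt_sum_of_nonempty Finset.univ_nonempty fun a _ =>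
                Finset.sum_lt_sum_of_nonempty Finset.univ_nonempty fun x _ => hlt a x
          _ = d * ((M - 1 : ℕ) * V) := by
              simp only [Finset.sum_const, Finset.card_univ, Fintype.card_fin, nsmul_eq_mul]
      have hlt3 := htot.trans_lt hlt2
      -- the side of the grid
      have hside : ((M - 1 : ℕ) : ℝ) ≤ (N : ℝ) ^ (1 / (d : ℝ)) := by
        have h1 : (M - 1) ^ d < N := hM2 (M - 1) (by omega)
        have h2 : (((M - 1 : ℕ) : ℝ)) ^ d ≤ (N : ℝ) := by exact_mod_cast h1.le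
        calc ((M - 1 : ℕ) : ℝ) = ((((M - 1 : ℕ) : ℝ)) ^ d) ^ (1 / (d : ℝ)) := by
              rw [← Real.rpow_natCast, ← Real.rpow_mul (Nat.cast_nonneg _)]
              rw [mul_one_div_cancel hd0.ne', Real.rpow_one]
          _ ≤ (N : ℝ) ^ (1 / (d : ℝ)) := Real.rpow_le_rpow (by positivity) h2 (by positivity)
      have hV0 : 0 ≤ V := mul_nonneg (le_min (by positivity) (by positivity)) hpow0
      have hVle : V ≤ κ * c₁ ^ (1 / (d : ℝ)) / c₂ * ((N : ℝ) / B) ^ (1 - 1 / (d : ℝ)) :=
        mul_le_mul_of_nonneg_right (min_le_left _ _) hpow0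
      have hm1 : κ * (c₁ * B) ^ (1 / (d : ℝ)) ≤ (c₁ * B) ^ (1 / (d : ℝ)) - 1 := by
        have h1 : 1 ≤ (2 : ℝ)⁻¹ ^ (1 / (d : ℝ)) * (c₁ * B) ^ (1 / (d : ℝ)) := by
          rw [← Real.mul_rpow (by norm_num) (by linarith)]
          exact Real.one_le_rpow (by linarith) (by positivity)
        rw [hκ]
        linarith
      have hNpos : (0 : ℝ) < N := by exact_mod_cast hN
      have hfinal : (d : ℝ) * (((M - 1 : ℕ) : ℝ) * V) ≤
          (N : ℝ) * ((d : ℝ) * ((c₁ * B) ^ (1 / (d : ℝ)) - 1) / (c₂ * B)) := by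
        calc (d : ℝ) * (((M - 1 : ℕ) : ℝ) * V)
            ≤ d * ((N : ℝ) ^ (1 / (d : ℝ)) *
              (κ * c₁ ^ (1 / (d : ℝ)) / c₂ * ((N : ℝ) / B) ^ (1 - 1 / (d : ℝ)))) := by
              refine mul_le_mul_of_nonneg_left ?_ hd0.le
              exact mul_le_mul hside hVle hV0 (by positivity)
          _ = (N : ℝ) * ((d : ℝ) * (κ * (c₁ * B) ^ (1 / (d : ℝ))) / (c₂ * B)) := by
              rw [Real.div_rpow hNpos.le hB0.le, Real.mul_rpow hc₁.le hB0.le]
              have h1 : (N : ℝ) ^ (1 / (d : ℝ)) * (N : ℝ) ^ (1 - 1 / (d : ℝ)) = N := by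
                rw [← Real.rpow_add hNpos]
                have : 1 / (d : ℝ) + (1 - 1 / (d : ℝ)) = 1 := by ring
                rw [this, Real.rpow_one]
              have h2 : (B : ℝ) = (B : ℝ) ^ (1 / (d : ℝ)) * (B : ℝ) ^ (1 - 1 / (d : ℝ)) := by
                rw [← Real.rpow_add hB0]
                have : 1 / (d : ℝ) + (1 - 1 / (d : ℝ)) = 1 := by ring
                rw [this, Real.rpow_one]
              have h3 : (0 : ℝ) < (B : ℝ) ^ (1 - 1 / (d : ℝ)) := by positivity
              calc (d : ℝ) * ((N : ℝ) ^ (1 / (d : ℝ)) *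
                    (κ * c₁ ^ (1 / (d : ℝ)) / c₂ *
                      ((N : ℝ) ^ (1 - 1 / (d : ℝ)) / (B : ℝ) ^ (1 - 1 / (d : ℝ)))))
                  = (d : ℝ) * κ * c₁ ^ (1 / (d : ℝ)) / c₂ *
                      ((N : ℝ) ^ (1 / (d : ℝ)) * (N : ℝ) ^ (1 - 1 / (d : ℝ))) /
                      (B : ℝ) ^ (1 - 1 / (d : ℝ)) := by ring
                _ = (d : ℝ) * κ * c₁ ^ (1 / (d : ℝ)) / c₂ * N /
                      (B : ℝ) ^ (1 - 1 / (d : ℝ)) := by rw [h1]
                _ = (N : ℝ) * ((d : ℝ) * (κ * (c₁ ^ (1 / (d : ℝ)) * (B : ℝ) ^ (1 / (d : ℝ)))) /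
                      (c₂ * ((B : ℝ) ^ (1 / (d : ℝ)) * (B : ℝ) ^ (1 - 1 / (d : ℝ))))) := by
                    field_simp
                _ = _ := by rw [← h2]
          _ ≤ _ := by
              refine mul_le_mul_of_nonneg_left ?_ hNpos.le
              refine div_le_div_of_nonneg_right ?_ (by positivity)
              exact mul_le_mul_of_nonneg_left hm1 hd0.le
      exact absurd hlt3 (not_lt.mpr hfinal)

/-- For every `d ≥ 2` there is a constant `c > 0` such that for all `N` and `B` there is a set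
of `N` boxes in `ℝ^d` such that every R-tree on it admits a stabbing query, with a point in none of the
boxes, that visits at least `c (N/B)^{1-1/d}` nodes. Consequently `f(N,B) = Ω((N/B)^{1-1/d})` for all
`f` such that every set of `N` boxes admits an R-tree on which every stabbing query costs
`O(f(N,B) + T/B)`. -/
theorem result {d : ℕ} (hd : 2 ≤ d) {c₁ c₂ : ℝ} (hc₁ : 0 < c₁) (hc₂ : 0 < c₂) :
    ∃ c : ℝ, 0 < c ∧
      (∀ N B : ℕ, 1 ≤ N → 2 ≤ c₁ * B →
        ∃ S : Finset (Box d), S.card = N ∧ ∀ (h : ℕ) (t : RTree d h), IsRTree c₁ c₂ B S t →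
          ∃ q : Fin d → ℝ, (∀ b ∈ S, q ∉ b.toSet) ∧
            c * ((N : ℝ) / B) ^ (1 - 1 / (d : ℝ)) ≤ (visits q t : ℝ)) ∧
      ∀ (C : ℝ) (f : ℕ → ℕ → ℝ), StabbingBound d c₁ c₂ C f →
        ∀ N B : ℕ, 1 ≤ N → 2 ≤ c₁ * B →
          c * ((N : ℝ) / B) ^ (1 - 1 / (d : ℝ)) ≤ C * f N B := by
  obtain ⟨c, hc, hmain⟩ := lower hd hc₁ hc₂
  refine ⟨c, hc, hmain, fun C f hf N B hN hB => ?_⟩
  obtain ⟨S, hS1, hS2⟩ := hmain N B hN hB
  obtain ⟨h, t, ht1, ht2⟩ := hf N B hN hB S hS1
  obtain ⟨q, hq1, hq2⟩ := hS2 h t ht1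
  refine hq2.trans ((ht2 q).trans (le_of_eq ?_))
  have : {b | b ∈ S ∧ q ∈ b.toSet} = (∅ : Set (Box d)) := by
    rw [Set.eq_empty_iff_forall_notMem]
    rintro b ⟨hb1, hb2⟩
    exact hq1 b hb1 hb2
  rw [this]
  simp

end Pool.Agent.Results.MP_a7848c_lc.StabbingLowerBound
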